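import Pool.Agent.T9h3.LN.Spec2

/-!
# Project LN, piece (T) (helper31): the tame extension
-/

set_option autoImplicit false
set_option linter.overlappingInstances false

namespace Pool.Agent.T9h31.LN

open Pool.Agent.T9h3.LN Polynomial

lemma m_ne_zero {E : Type} [Field E] (V : ValuationSubring E) (r m : ℕ)
    (hco : Nat.Coprime m r) (hr : (r : E)⁻¹ ∉ V ∨ (r : E) = 0) : (m : E) ≠ 0 := by
  intro hm
  have h1 := Nat.gcd_eq_gcd_ab m r
  rw [hco] at h1
  have h2 : (1 : E) = (r : E) * ((Nat.gcdB m r : ℤ) : E) := by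
    have := congrArg (fun z : ℤ => (z : E)) h1
    push_cast at this
    rw [hm, zero_mul, zero_add] at this
    exact this
  rcases hr with hr | hr
  · apply hr
    have hr0 : (r : E) ≠ 0 := by
      intro h
      rw [h, zero_mul] at h2
      exact one_ne_zero h2
    have h3 : (r : E)⁻¹ = ((Nat.gcdB m r : ℤ) : E) := by
      rw [inv_eq_iff_eq_inv]
      exact eq_inv_of_mul_eq_one_left h2.symm
    rw [h3]
    exact intCast_mem V _
  · rw [hr, zero_mul] at h2
    exact one_ne_zero h2

/-- roots of unity congruent to one -/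
lemma root_one {O : Type} [CommRing O] [IsDomain O] (P : Ideal O) (hP : P.IsMaximal) {r m : ℕ}
    (hco : Nat.Coprime m r) (hr : (r : O) ∈ P) (η : O) (h1 : η ^ m = 1) (h2 : η - 1 ∈ P) :
    η = 1 := by
  by_contra hne
  have h3 : η - 1 ≠ 0 := sub_ne_zero.2 hne
  have h4 : ∑ j ∈ Finset.range m, η ^ j = 0 := by
    have h5 : (∑ j ∈ Finset.range m, η ^ j) * (η - 1) = η ^ m - 1 := geom_sum_mul η m
    rw [h1, sub_self] at h5
    exact (mul_eq_zero.1 h5).resolve_right h3
  have h6 : (m : O) ∈ P := by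
    have h7 : (∑ j ∈ Finset.range m, η ^ j) - (m : O) ∈ P := by
      have h8 : (∑ j ∈ Finset.range m, η ^ j) - (m : O) = ∑ j ∈ Finset.range m, (η ^ j - 1) := by
        rw [Finset.sum_sub_distrib]
        simp
      rw [h8]
      refine Ideal.sum_mem _ fun j _ => ?_
      have h9 : η - 1 ∣ η ^ j - 1 := by
        have := sub_dvd_pow_sub_pow η 1 j
        rwa [one_pow] at this
      exact Ideal.mem_of_dvd _ h9 h2
    rw [h4, zero_sub] at h7
    exact neg_mem_iff.1 h7
  apply hP.ne_top
  rw [Ideal.eq_top_iff_one]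
  have h10 := Nat.gcd_eq_gcd_ab m r
  rw [hco] at h10
  have h11 : (1 : O) = (m : O) * ((Nat.gcdA m r : ℤ) : O) + (r : O) * ((Nat.gcdB m r : ℤ) : O) := by
    have := congrArg (fun z : ℤ => (z : O)) h10
    push_cast at this
    exact this
  rw [h11]
  exact P.add_mem (P.mul_mem_right _ h6) (P.mul_mem_right _ hr)

lemma tame_main {E M M' : Type} [Field E] [Field M] [Field M'] [Algebra E M] [Algebra E M']
    [Algebra M M'] [IsScalarTower E M M'] (V : ValuationSubring E) (π : E) (r m : ℕ) (hπ : π ≠ 0)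
    (hm : 1 ≤ m) (hco : Nat.Coprime m r)
    (hadj : Algebra.adjoin M (((X ^ m - C π : E[X]).map (algebraMap E M)).rootSet M') = ⊤)
    (𝔓 : Ideal (integralClosure V M')) (h𝔓 : 𝔓.IsMaximal)
    (hr𝔓 : (r : integralClosure V M') ∈ 𝔓) (h : M' ≃ₐ[E] M') (hI : h ∈ Ing 𝔓)
    (hM : ∀ x : M, h (algebraMap M M' x) = algebraMap M M' x) (hhr : h ^ r = 1) : h = 1 := by
  have hπ' : algebraMap E M' π ≠ 0 := by
    rw [Ne, FaithfulSMul.algebraMap_eq_zero_iff]
    exact hπ
  have key : ∀ α : M', α ^ m = algebraMap E M' π → h α = α := by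
    intro α hα
    have hα0 : α ≠ 0 := by
      rintro rfl
      rw [zero_pow (by omega)] at hα
      exact hπ' hα.symm
    obtain ⟨ζ, hζ⟩ : ∃ ζ : M', ζ = h α / α := ⟨_, rfl⟩
    have hhα : h α = ζ * α := by
      rw [hζ, div_mul_cancel₀ _ hα0]
    have hζm : ζ ^ m = 1 := by
      rw [hζ, div_pow, ← map_pow, hα, AlgEquiv.commutes, div_self hπ']
    have hζ0 : ζ ≠ 0 := by
      rintro rfl
      rw [zero_pow (by omega)] at hζm
      exact zero_ne_one hζm
    -- roots of unity are integral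
    have hint : ∀ y : M', y ^ m = 1 → IsIntegral V y := fun y hy =>
      IsIntegral.of_pow hm (by rw [hy]; exact isIntegral_one)
    obtain ⟨z, hz⟩ : ∃ z : integralClosure V M', (z : M') = ζ := ⟨⟨ζ, hint ζ hζm⟩, rfl⟩
    have hζi : (ζ⁻¹) ^ m = 1 := by rw [inv_pow, hζm, inv_one]
    obtain ⟨z', hz'⟩ : ∃ z' : integralClosure V M', (z' : M') = ζ⁻¹ := ⟨⟨ζ⁻¹, hint _ hζi⟩, rfl⟩
    have hhζ : (h ζ) ^ m = 1 := by rw [← map_pow, hζm, map_one]
    obtain ⟨w, hw⟩ : ∃ w : integralClosure V M', (w : M') = h ζ := ⟨⟨h ζ, hint _ hhζ⟩, rfl⟩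
    obtain ⟨e, he1, he2⟩ := hI z
    rw [hz] at he2
    have h1 : w * z' - 1 ∈ 𝔓 := by
      have h2 : w * z' - 1 = z' * e := by
        apply Subtype.ext
        show (w : M') * (z' : M') - 1 = (z' : M') * (e : M')
        rw [he2, hw, hz']
        field_simp
      rw [h2]
      exact 𝔓.mul_mem_left _ he1
    have h3 : (w * z') ^ m = 1 := by
      apply Subtype.ext
      show ((w : M') * (z' : M')) ^ m = 1
      rw [mul_pow, hw, hz', hhζ, hζi, one_mul]
    have h4 : w * z' = 1 := root_one 𝔓 h𝔓 hco hr𝔓 _ h3 h1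
    have h5 : h ζ = ζ := by
      have h6 : (w : M') * (z' : M') = 1 := congrArg Subtype.val h4
      rw [hw, hz', mul_inv_eq_one₀ hζ0] at h6
      exact h6
    have h7 : ∀ j : ℕ, (h ^ j) α = ζ ^ j * α := by
      intro j
      induction j with
      | zero => simp
      | succ j ih =>
        rw [pow_succ', AlgEquiv.mul_apply, ih, map_mul, map_pow, h5, hhα]
        ring
    have h8 := h7 r
    rw [hhr, AlgEquiv.one_apply] at h8
    have h9 : ζ ^ r = 1 := by
      have : (ζ ^ r - 1) * α = 0 := by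
        rw [sub_mul, one_mul, ← h8, sub_self]
      have := (mul_eq_zero.1 this).resolve_right hα0
      exact sub_eq_zero.1 this
    have h10 : ζ = 1 := by
      have h11 : orderOf ζ ∣ Nat.gcd m r :=
        Nat.dvd_gcd (orderOf_dvd_of_pow_eq_one hζm) (orderOf_dvd_of_pow_eq_one h9)
      rw [hco] at h11
      exact orderOf_eq_one_iff.1 (Nat.dvd_one.1 h11)
    rw [hhα, h10, one_mul]
  let h' : M' →ₐ[M] M' := { h.toRingEquiv.toRingHom with commutes' := hM }
  have h1 : h' = AlgHom.id M M' := by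
    refine AlgHom.ext_of_adjoin_eq_top hadj ?_
    intro α hα
    rw [mem_rootSet'] at hα
    show h α = α
    apply key
    have h2 : aeval α ((X ^ m - C π : E[X]).map (algebraMap E M)) = α ^ m - algebraMap E M' π := by
      rw [aeval_map_algebraMap]
      simp
    rw [h2, sub_eq_zero] at hα
    exact hα.2
  apply AlgEquiv.ext
  intro x
  exact DFunLike.congr_fun h1 x

theorem tame : S_Tame := by
  intro E M _ _ _ _ _ V π r m hπ hrp hm hco hr
  have hmE : (m : E) ≠ 0 := m_ne_zero V r m hco hr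
  obtain ⟨g, hg⟩ : ∃ g : E[X], g = X ^ m - C π := ⟨_, rfl⟩
  have hg0 : g ≠ 0 := by
    rw [hg]
    exact X_pow_sub_C_ne_zero hm π
  have hgs : g.Separable := by
    rw [hg]
    exact separable_X_pow_sub_C π hmE hπ
  obtain ⟨f, hf1, hf2⟩ := IsGalois.is_separable_splitting_field (F := E) (E := M)
  have hf0 : f ≠ 0 := hf1.ne_zero
  let G : M[X] := g.map (algebraMap E M)
  let M' : Type := SplittingField G
  have hspl : IsSplittingField E M' (f * g) := IsSplittingField.mul (K := M) M' f g hf0 hg0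
  have hnorm : Normal E M' := Normal.of_isSplittingField (f * g)
  have hGal : IsGalois M M' := IsGalois.of_separable_splitting_field (p := G) hgs.map
  have hsep : Algebra.IsSeparable E M' := Algebra.IsSeparable.trans E M M'
  have hgal : IsGalois E M' := ⟨⟩
  have hfin : FiniteDimensional E M' := FiniteDimensional.trans E M M'
  have hGdeg : G.degree ≠ 0 := by
    have : G.degree = (m : WithBot ℕ) := by
      show (g.map (algebraMap E M)).degree = _
      rw [degree_map, hg, degree_X_pow_sub_C hm]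
    rw [this]
    exact_mod_cast (by omega : m ≠ 0)
  obtain ⟨ϖ, hϖ⟩ : ∃ ϖ : M', ϖ ^ m = algebraMap E M' π := by
    have hs : (G.map (algebraMap M M')).Splits := IsSplittingField.splits M' G
    obtain ⟨x, hx⟩ := hs.exists_eval_eq_zero (by rwa [degree_map])
    refine ⟨x, ?_⟩
    have h1 : G.map (algebraMap M M') = X ^ m - C (algebraMap E M' π) := by
      show (g.map (algebraMap E M)).map (algebraMap M M') = _
      rw [Polynomial.map_map, ← IsScalarTower.algebraMap_eq E M M', hg]
      simp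
    rw [h1, eval_sub, eval_pow, eval_X, eval_C, sub_eq_zero] at hx
    exact hx
  refine ⟨M', inferInstance, inferInstance, inferInstance, inferInstance, hfin, hgal, ϖ, hϖ, ?_⟩
  have hadj : Algebra.adjoin M (((X ^ m - C π : E[X]).map (algebraMap E M)).rootSet M') = ⊤ := by
    rw [← hg]
    exact IsSplittingField.adjoin_rootSet M' G
  intro 𝔓 h𝔓 hr𝔓 h hI hM hhr
  exact tame_main V π r m hπ hm hco hadj 𝔓 h𝔓 hr𝔓 h hI hM hhr

end Pool.Agent.T9h31.LN
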